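import Mathlib

open Classical

namespace Pool.Agent.Results.MP_58deb1_lc.UPOracle

/-- Words over the alphabet `{0,1}` (`false` is `0`, `true` is `1`). -/
abbrev Word := List Bool

/-- Instructions of a deterministic oracle machine whose memory is a sequence of stacks of bits
(a program, being a finite list of instructions, only uses finitely many of them). -/
inductive Instr where
  /-- push the bit `b` on stack `r`, go to instruction `next` -/
  | push (r : ℕ) (b : Bool) (next : ℕ)
  /-- pop stack `r`; go to `onEmpty`, `onZero`, `onOne` if the stack was empty, had top `0`,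
  had top `1` -/
  | pop (r : ℕ) (onEmpty onZero onOne : ℕ)
  /-- ask the oracle about the word on stack `r` (read from the top), go to `ifYes` or `ifNo` -/
  | query (r : ℕ) (ifYes ifNo : ℕ)
  /-- stop and accept (`true`) or reject (`false`) -/
  | stop (b : Bool)

/-- Configurations: running at instruction number `pc` with stack contents `st`, or halted. -/
inductive Cfg where
  | run (pc : ℕ) (st : ℕ → Word)
  | halt (b : Bool)

/-- Execution of one instruction (`none`: there is no such instruction, the machine rejects) with
oracle `O` and stack contents `st`. -/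
noncomputable def exec (O : Set Word) (st : ℕ → Word) : Option Instr → Cfg
  | none => .halt false
  | some (.push r b l) => .run l (Function.update st r (b :: st r))
  | some (.pop r e z o) =>
    match st r with
    | [] => .run e st
    | false :: u => .run z (Function.update st r u)
    | true :: u => .run o (Function.update st r u)
  | some (.query r y n) => if st r ∈ O then .run y st else .run n st
  | some (.stop b) => .halt b

/-- One step of the program `M` with oracle `O`. -/
noncomputable def step (M : List Instr) (O : Set Word) : Cfg → Cfg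
  | .halt b => .halt b
  | .run pc st => exec O st M[pc]?

/-- Stack 0 holds `x`, stack 1 holds `y`, all others are empty. -/
def stk (x y : Word) : ℕ → Word
  | 0 => x
  | 1 => y
  | _ => []

/-- The configuration of the machine on input `(x, y)` after `t` steps. -/
noncomputable def runFor (M : List Instr) (O : Set Word) (x y : Word) (t : ℕ) : Cfg :=
  (step M O)^[t] (.run 0 (stk x y))

/-- The class `P` relative to `O`: some program with oracle `O` decides `L` (input `x` on stack 0)
within `p(|x|)` steps, `p` a polynomial. -/
def ClassP (O : Set Word) : Set (Set Word) :=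
  {L | ∃ (M : List Instr) (p : Polynomial ℕ), ∀ x : Word,
    (x ∈ L → runFor M O x [] (p.eval x.length) = .halt true) ∧
    (x ∉ L → runFor M O x [] (p.eval x.length) = .halt false)}

/-- The class `NP` relative to `O`: there are a program `M` with oracle `O` that halts on all
`(x, y)` within `p(|x| + |y|)` steps, and a polynomial `q`, such that `x ∈ L` iff `M` accepts
`(x, y)` for some word `y` of length at most `q(|x|)`. -/
def ClassNP (O : Set Word) : Set (Set Word) :=
  {L | ∃ (M : List Instr) (p q : Polynomial ℕ),
    (∀ x y : Word, ∃ b : Bool, runFor M O x y (p.eval (x.length + y.length)) = .halt b) ∧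
    ∀ x : Word, x ∈ L ↔ ∃ y : Word, y.length ≤ q.eval x.length ∧
      runFor M O x y (p.eval (x.length + y.length)) = .halt true}

/-- The join `0O ∪ 1T` of two oracles. -/
def join (O T : Set Word) : Set Word :=
  {s | (∃ x ∈ O, s = false :: x) ∨ (∃ x ∈ T, s = true :: x)}

/-- `S` is polynomial-time Turing reducible to `T`, relative to `O`: `S` is decided in polynomial
time with access to both `T` and `O`. -/
def TuringRed (O S T : Set Word) : Prop := S ∈ ClassP (join O T)

/-- The shrinking property of a class of languages. -/
def HasShrinking (C : Set (Set Word)) : Prop :=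
  ∀ A ∈ C, ∀ B ∈ C, ∃ A' ∈ C, ∃ B' ∈ C, A' ⊆ A ∧ B' ⊆ B ∧ A' ∩ B' = ∅ ∧ A' ∪ B' = A ∪ B

/-- Disjoint NP-pairs relative to `O`. -/
def IsDisjointNPPair (O A B : Set Word) : Prop :=
  A ∈ ClassNP O ∧ B ∈ ClassNP O ∧ A.Nonempty ∧ B.Nonempty ∧ A ∩ B = ∅

/-- The separators of the pair `(A, B)`. -/
def Sep (A B : Set Word) : Set (Set Word) := {S | A ⊆ S ∧ B ∩ S = ∅}

/-- `(A, B) ≤ (C, D)`: for every separator `T` of `(C, D)` there is a separator `S` of `(A, B)`
with `S` polynomial-time Turing reducible to `T` (everything relative to `O`). -/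
def PPRed (O A B C D : Set Word) : Prop :=
  ∀ T ∈ Sep C D, ∃ S ∈ Sep A B, TuringRed O S T

/-- The pair `(A, B)` is NP-hard relative to `O`: `(K, complement of K)` reduces to `(A, B)` for
every `K` in `NP` relative to `O` (in particular for the complete sets). -/
def IsNPHard (O A B : Set Word) : Prop :=
  ∀ K ∈ ClassNP O, PPRed O K Kᶜ A B

/-! ### Basic facts about runs -/

/-- the list of oracle queries made in the first `t` steps -/
noncomputable def queries (M : List Instr) (O : Set Word) : ℕ → Cfg → List Word
  | 0, _ => []
  | _ + 1, .halt _ => []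
  | t + 1, .run pc st =>
    (match M[pc]? with
      | some (.query r _ _) => [st r]
      | _ => []) ++ queries M O t (step M O (.run pc st))

theorem iter_halt (M : List Instr) (O : Set Word) (b : Bool) (t : ℕ) :
    (step M O)^[t] (.halt b) = .halt b := by
  induction t with
  | zero => rfl
  | succ t ih => rw [Function.iterate_succ_apply]; exact ih

theorem iter_mono {M : List Instr} {O : Set Word} {c : Cfg} {b : Bool} {t t' : ℕ}
    (h : (step M O)^[t] c = .halt b) (ht : t ≤ t') : (step M O)^[t'] c = .halt b := by
  obtain ⟨k, rfl⟩ := Nat.exists_eq_add_of_le ht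
  rw [add_comm, Function.iterate_add_apply, h, iter_halt]

theorem queries_length (M : List Instr) (O : Set Word) (t : ℕ) (c : Cfg) :
    (queries M O t c).length ≤ t := by
  induction t generalizing c with
  | zero => simp [queries]
  | succ t ih =>
    cases c with
    | halt b => simp [queries]
    | run pc st =>
      rw [queries, List.length_append]
      have h1 := ih (step M O (.run pc st))
      have h2 : (match M[pc]? with
        | some (.query r _ _) => [st r]
        | _ => []).length ≤ 1 := by
        split <;> simp
      omega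

/-- all stacks have length at most `B` -/
def Bdd (B : ℕ) : Cfg → Prop
  | .halt _ => True
  | .run _ st => ∀ r, (st r).length ≤ B

theorem bdd_step {M : List Instr} {O : Set Word} {c : Cfg} {B : ℕ} (h : Bdd B c) :
    Bdd (B + 1) (step M O c) := by
  cases c with
  | halt b => exact trivial
  | run pc st =>
    rw [step]
    rcases hM : M[pc]? with _ | i
    · trivial
    rcases i with ⟨r, b, l⟩ | ⟨r, e, z, o⟩ | ⟨r, y, n⟩ | b
    · intro s
      by_cases hs : s = r
      · subst hs; simp; exact h s
      · simp [Function.update_of_ne hs]; have := h s; omega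
    · rw [exec]
      split
      · intro s; have := h s; omega
      · rename_i u hu
        intro s
        by_cases hs : s = r
        · subst hs; simp; have := h s; rw [hu] at this; simp at this; omega
        · simp [Function.update_of_ne hs]; have := h s; omega
      · rename_i u hu
        intro s
        by_cases hs : s = r
        · subst hs; simp; have := h s; rw [hu] at this; simp at this; omega
        · simp [Function.update_of_ne hs]; have := h s; omega
    · rw [exec]
      split
      · intro s; have := h s; omega
      · intro s; have := h s; omega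
    · trivial

theorem queries_bdd {M : List Instr} {O : Set Word} (t : ℕ) {c : Cfg} {B : ℕ} (h : Bdd B c) :
    ∀ q ∈ queries M O t c, q.length ≤ B + t := by
  induction t generalizing c B with
  | zero => simp [queries]
  | succ t ih =>
    cases c with
    | halt b => simp [queries]
    | run pc st =>
      intro q hq
      rw [queries, List.mem_append] at hq
      rcases hq with hq | hq
      · have : ∃ r, q = st r := by
          split at hq
          · simp at hq; exact ⟨_, hq⟩
          · simp at hq
        obtain ⟨r, rfl⟩ := this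
        have := h r
        omega
      · have := ih (bdd_step (M := M) (O := O) h) q hq
        omega

theorem locality {M : List Instr} {O O' : Set Word} (t : ℕ) {c : Cfg}
    (h : ∀ q ∈ queries M O t c, (q ∈ O ↔ q ∈ O')) :
    (step M O)^[t] c = (step M O')^[t] c := by
  induction t generalizing c with
  | zero => rfl
  | succ t ih =>
    cases c with
    | halt b => rw [iter_halt, iter_halt]
    | run pc st =>
      rw [Function.iterate_succ_apply, Function.iterate_succ_apply]
      have hstep : step M O (.run pc st) = step M O' (.run pc st) := by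
        rw [step, step]
        rcases hM : M[pc]? with _ | i
        · rfl
        rcases i with ⟨r, b, l⟩ | ⟨r, e, z, o⟩ | ⟨r, y, n⟩ | b
        · rfl
        · rfl
        · have : st r ∈ O ↔ st r ∈ O' := by
            apply h
            rw [queries, hM]
            simp
          rw [exec, exec]
          simp only [this]
        · rfl
      rw [← hstep]
      apply ih
      intro q hq
      apply h
      rw [queries]
      exact List.mem_append_right _ hq

theorem stk_bdd (x y : Word) : Bdd (x.length + y.length) (.run 0 (stk x y)) := by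
  intro r
  match r with
  | 0 => simp [stk]
  | 1 => simp [stk]
  | (n + 2) => simp [stk]

/-! ### Polynomials -/

theorem countable_poly : Countable (Polynomial ℕ) := by
  have hinj : Function.Injective (fun p : Polynomial ℕ =>
      (List.range (p.natDegree + 1)).map p.coeff) := by
    intro p q h
    simp only at h
    have hl := congrArg List.length h
    simp at hl
    ext n
    by_cases hn : n ≤ p.natDegree
    · have := congrArg (fun l => l[n]?) h
      simp only [List.getElem?_map] at this
      rw [List.getElem?_range (by omega), List.getElem?_range (by omega)] at this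
      simpa using this
    · rw [Polynomial.coeff_eq_zero_of_natDegree_lt (by omega),
        Polynomial.coeff_eq_zero_of_natDegree_lt (by omega)]
  exact hinj.countable

theorem eval_mono (p : Polynomial ℕ) {a b : ℕ} (h : a ≤ b) : p.eval a ≤ p.eval b := by
  induction p using Polynomial.induction_on' with
  | add p q hp hq => rw [Polynomial.eval_add, Polynomial.eval_add]; omega
  | monomial n c => rw [Polynomial.eval_monomial, Polynomial.eval_monomial]; gcongr

open Filter in
theorem poly_lt_two_pow (p : Polynomial ℕ) :
    ∀ C : ℕ, ∀ᶠ n : ℕ in atTop, C * p.eval n < 2 ^ n := by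
  induction p using Polynomial.induction_on' with
  | add p q hp hq =>
    intro C
    filter_upwards [hp (2 * C), hq (2 * C)] with n h1 h2
    rw [Polynomial.eval_add]
    nlinarith
  | monomial k c =>
    intro C
    have h := tendsto_pow_const_div_const_pow_of_one_lt k (r := 2) (by norm_num)
    have h2 : ∀ᶠ n : ℕ in atTop, (n : ℝ) ^ k / 2 ^ n < 1 / (C * c + 1) :=
      h.eventually_lt_const (by positivity)
    filter_upwards [h2] with n hn
    rw [Polynomial.eval_monomial]
    rw [div_lt_div_iff₀ (by positivity) (by positivity), one_mul] at hn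
    have h3 : (n:ℝ) ^ k * (C * c) ≤ (n:ℝ) ^ k * (C * c + 1) := by
      have : (0:ℝ) ≤ (n:ℝ) ^ k := by positivity
      nlinarith
    have h4 : ((C * (c * n ^ k) : ℕ) : ℝ) < ((2 ^ n : ℕ) : ℝ) := by
      push_cast
      nlinarith
    exact_mod_cast h4

/-! ### Indices of NP-machines -/

/-- An NP-machine: a program, a time bound, a bound for the length of witnesses. -/
abbrev NPM := List Instr × Polynomial ℕ × Polynomial ℕ

theorem countable_instr : Countable Instr := by
  let f : Instr → ℕ × ℕ × Bool × ℕ × ℕ × ℕ := fun i => match i with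
    | .push r b l => (0, r, b, l, 0, 0)
    | .pop r e z o => (1, r, true, e, z, o)
    | .query r y n => (2, r, true, y, n, 0)
    | .stop b => (3, 0, b, 0, 0, 0)
  have hf : Function.Injective f := by
    intro i j h
    cases i <;> cases j <;> simp_all [f]
  exact hf.countable

theorem exists_enum : ∃ f : ℕ → NPM, Function.Surjective f := by
  have := countable_instr
  have := countable_poly
  exact exists_surjective_nat NPM

/-- an enumeration of all NP-machines -/
noncomputable def enum : ℕ → NPM := exists_enum.choose

theorem enum_surj : Function.Surjective enum := exists_enum.choose_spec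

/-- The NP-machine `i` accepts `x` with oracle `O`. -/
def Acc (i : NPM) (O : Set Word) (x : Word) : Prop :=
  ∃ y : Word, y.length ≤ i.2.2.eval x.length ∧
    runFor i.1 O x y (i.2.1.eval (x.length + y.length)) = .halt true

/-- bound for the length of the oracle queries and for the time -/
noncomputable def lam (i : NPM) : Polynomial ℕ :=
  Polynomial.X + i.2.2 + i.2.1.comp (Polynomial.X + i.2.2)

theorem lam_eval (i : NPM) (n : ℕ) :
    (lam i).eval n = n + i.2.2.eval n + i.2.1.eval (n + i.2.2.eval n) := by
  simp [lam]

/-- queries of the computation of `i` on `(x, y)` -/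
noncomputable def Qs (i : NPM) (O : Set Word) (x y : Word) : List Word :=
  queries i.1 O (i.2.1.eval (x.length + y.length)) (.run 0 (stk x y))

theorem Qs_length {i : NPM} {O : Set Word} {x y : Word}
    (hy : y.length ≤ i.2.2.eval x.length) : (Qs i O x y).length ≤ (lam i).eval x.length := by
  have h1 := queries_length i.1 O (i.2.1.eval (x.length + y.length)) (.run 0 (stk x y))
  have h2 : i.2.1.eval (x.length + y.length) ≤ i.2.1.eval (x.length + i.2.2.eval x.length) :=
    eval_mono _ (by omega)
  rw [lam_eval]
  unfold Qs
  omega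

theorem Qs_bdd {i : NPM} {O : Set Word} {x y : Word}
    (hy : y.length ≤ i.2.2.eval x.length) :
    ∀ q ∈ Qs i O x y, q.length ≤ (lam i).eval x.length := by
  intro q hq
  have h1 := queries_bdd (M := i.1) (O := O) (i.2.1.eval (x.length + y.length))
    (stk_bdd x y) q hq
  have h2 : i.2.1.eval (x.length + y.length) ≤ i.2.1.eval (x.length + i.2.2.eval x.length) :=
    eval_mono _ (by omega)
  rw [lam_eval]
  omega

theorem run_local {i : NPM} {O O' : Set Word} {x y : Word}
    (h : ∀ q ∈ Qs i O x y, (q ∈ O ↔ q ∈ O')) :
    runFor i.1 O x y (i.2.1.eval (x.length + y.length)) =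
      runFor i.1 O' x y (i.2.1.eval (x.length + y.length)) :=
  locality _ h

theorem Acc_local {i : NPM} {O O' : Set Word} {x : Word}
    (h : ∀ q : Word, q.length ≤ (lam i).eval x.length → (q ∈ O ↔ q ∈ O')) :
    Acc i O x ↔ Acc i O' x := by
  unfold Acc
  constructor
  · rintro ⟨y, hy, hr⟩
    refine ⟨y, hy, ?_⟩
    rw [← run_local (O := O) (O' := O') (fun q hq => h q (Qs_bdd hy q hq))]
    exact hr
  · rintro ⟨y, hy, hr⟩
    refine ⟨y, hy, ?_⟩
    rw [← run_local (O := O') (O' := O) (fun q hq => (h q (Qs_bdd hy q hq)).symm)]
    exact hr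

/-! ### Encodings -/

/-- each bit `b` becomes `1b` -/
def pairs : Word → Word
  | [] => []
  | b :: u => true :: b :: pairs u

theorem pairs_append (u v : Word) : pairs (u ++ v) = pairs u ++ pairs v := by
  induction u with
  | nil => rfl
  | cons b u ih => simp [pairs, ih]

theorem pairs_length (u : Word) : (pairs u).length = 2 * u.length := by
  induction u with
  | nil => rfl
  | cons b u ih => simp [pairs, ih]; ring

theorem pairs_inj {u u' r r' : Word} (h : pairs u ++ false :: r = pairs u' ++ false :: r') :
    u = u' ∧ r = r' := by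
  induction u generalizing u' with
  | nil =>
    cases u' with
    | nil => simpa [pairs] using h
    | cons b u' => simp [pairs] at h
  | cons b u ih =>
    cases u' with
    | nil => simp [pairs] at h
    | cons b' u' =>
      simp only [pairs, List.cons_append, List.cons.injEq, true_and] at h
      obtain ⟨h1, h2⟩ := h
      obtain ⟨h3, h4⟩ := ih h2
      exact ⟨by rw [h1, h3], h4⟩

theorem rep_inj {c : Bool} {m m' : ℕ} {r r' : Word}
    (h : List.replicate m c ++ (!c) :: r = List.replicate m' c ++ (!c) :: r') :
    m = m' ∧ r = r' := by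
  induction m generalizing m' with
  | zero =>
    cases m' with
    | zero => simpa using h
    | succ m' => simp [List.replicate_succ] at h
  | succ m ih =>
    cases m' with
    | zero => simp [List.replicate_succ] at h
    | succ m' =>
      simp only [List.replicate_succ, List.cons_append, List.cons.injEq, true_and] at h
      obtain ⟨h1, h2⟩ := ih h
      exact ⟨by rw [h1], h2⟩

/-- the word with pad length `m` and partial witness `u` for the pair `(e, x)` -/
def body (e : ℕ) (x : Word) (m : ℕ) (u : Word) : Word :=
  pairs u ++ (List.replicate m false ++ (List.replicate (e + 1) true ++ false :: x))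

theorem pairs_body (e : ℕ) (x : Word) (m : ℕ) (u v : Word) :
    pairs v ++ body e x m u = body e x m (v ++ u) := by
  unfold body
  rw [pairs_append, List.append_assoc]

theorem body_inj {e e' : ℕ} {x x' : Word} {m m' : ℕ} {u u' : Word} (hm : 0 < m) (hm' : 0 < m')
    (h : body e x m u = body e' x' m' u') : e = e' ∧ x = x' ∧ m = m' ∧ u = u' := by
  unfold body at h
  obtain ⟨m, rfl⟩ := Nat.exists_eq_succ_of_ne_zero hm.ne'
  obtain ⟨m', rfl⟩ := Nat.exists_eq_succ_of_ne_zero hm'.ne'
  simp only [Nat.succ_eq_add_one, List.replicate_succ (n := m), List.replicate_succ (n := m'),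
    List.cons_append] at h
  obtain ⟨h1, h2⟩ := pairs_inj h
  simp only [List.replicate_succ (n := e), List.replicate_succ (n := e'), List.cons_append] at h2
  obtain ⟨h3, h4⟩ := rep_inj (c := false) h2
  obtain ⟨h5, h6⟩ := rep_inj (c := true) h4
  exact ⟨h5, h6, by omega, h1⟩

theorem body_ne {e : ℕ} {x : Word} {m : ℕ} {u v : Word} {n : ℕ} (hm : 0 < m) (hn : 0 < n) :
    body e x m u ≠ pairs v ++ List.replicate n false := by
  intro h
  unfold body at h
  obtain ⟨m, rfl⟩ := Nat.exists_eq_succ_of_ne_zero hm.ne'
  obtain ⟨n, rfl⟩ := Nat.exists_eq_succ_of_ne_zero hn.ne'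
  simp only [Nat.succ_eq_add_one, List.replicate_succ (n := m), List.replicate_succ (n := n),
    List.cons_append] at h
  obtain ⟨h1, h2⟩ := pairs_inj h
  have : true ∈ List.replicate n false := by
    rw [← h2]; simp
  simp at this

/-- length of the unique witnesses -/
noncomputable def ell (e : ℕ) (x : Word) : ℕ := ((lam (enum e)).eval x.length + 3) ^ 2

theorem ell_pos (e : ℕ) (x : Word) : 0 < ell e x := by unfold ell; positivity

/-- the code word of `(e, x)` with witness `v` -/
noncomputable def code (e : ℕ) (x v : Word) : Word := false :: true :: body e x (ell e x) v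

theorem code_inj {e e' : ℕ} {x x' v v' : Word} (h : code e x v = code e' x' v') :
    e = e' ∧ x = x' ∧ v = v' := by
  unfold code at h
  simp only [List.cons.injEq, true_and] at h
  obtain ⟨h1, h2, _, h4⟩ := body_inj (ell_pos _ _) (ell_pos _ _) h
  exact ⟨h1, h2, h4⟩

theorem code_length (e : ℕ) (x v : Word) :
    (code e x v).length = 2 * v.length + ell e x + e + x.length + 4 := by
  simp [code, body, pairs_length]; ring

/-- the fixed helper set -/
def Hset : Set Word :=
  {z | (∃ e x u, u.length < ell e x ∧ z = body e x (ell e x) u) ∨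
    ∃ n, z = List.replicate (n + 1) false}

/-- the word marking `v` on side `c` at level `n` -/
def markWord (c : Bool) (n : ℕ) (v : Word) : Word :=
  true :: c :: (pairs (v ++ [false]) ++ List.replicate n false)

theorem markWord_inj {c c' : Bool} {n n' : ℕ} {v v' : Word} (hn : 0 < n) (hn' : 0 < n')
    (h : markWord c n v = markWord c' n' v') : c = c' ∧ n = n' ∧ v = v' := by
  unfold markWord at h
  simp only [List.cons.injEq, true_and] at h
  obtain ⟨h1, h2⟩ := h
  obtain ⟨n, rfl⟩ := Nat.exists_eq_succ_of_ne_zero hn.ne'
  obtain ⟨n', rfl⟩ := Nat.exists_eq_succ_of_ne_zero hn'.ne'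
  simp only [Nat.succ_eq_add_one, List.replicate_succ] at h2
  obtain ⟨h3, h4⟩ := pairs_inj h2
  have h5 := congrArg List.length h4
  simp at h5
  exact ⟨h1, by omega, by simpa using h3⟩

theorem markWord_length (c : Bool) (n : ℕ) (v : Word) :
    (markWord c n v).length = 2 * v.length + n + 4 := by
  simp [markWord, pairs_length]; ring

/-- marks: side, level, word -/
abbrev Marks := Bool → ℕ → Word → Prop

/-- the part of the oracle which does not code computations -/
def InBase (μ : Marks) (s : Word) : Prop :=
  (∃ z ∈ Hset, s = false :: false :: z) ∨ (∃ c n v, μ c (n + 1) v ∧ s = markWord c (n + 1) v)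

/-- approximations of the oracle -/
noncomputable def OrcN (w : ℕ → Word → Word) (μ : Marks) : ℕ → Set Word
  | 0 => ∅
  | n + 1 => {s | InBase μ s ∨ ∃ e x, s = code e x (w e x) ∧ Acc (enum e) (OrcN w μ n) x}

/-- the oracle with unique witnesses `w` and marks `μ` -/
noncomputable def Orc (w : ℕ → Word → Word) (μ : Marks) : Set Word :=
  {s | s ∈ OrcN w μ (s.length + 1)}

theorem lam_lt_ell (e : ℕ) (x : Word) : (lam (enum e)).eval x.length + 3 ≤ ell e x := by
  unfold ell
  nlinarith [Nat.zero_le ((lam (enum e)).eval x.length)]

theorem lam_lt_code (e : ℕ) (x v : Word) :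
    (lam (enum e)).eval x.length < (code e x v).length := by
  have := lam_lt_ell e x
  rw [code_length]
  omega

theorem OrcN_stable (w : ℕ → Word → Word) (μ : Marks) :
    ∀ (k : ℕ) (s : Word), s.length ≤ k → ∀ n m, s.length < n → s.length < m →
      (s ∈ OrcN w μ n ↔ s ∈ OrcN w μ m) := by
  intro k
  induction k with
  | zero =>
    intro s hs n m hn hm
    obtain ⟨n, rfl⟩ := Nat.exists_eq_succ_of_ne_zero (by omega : n ≠ 0)
    obtain ⟨m, rfl⟩ := Nat.exists_eq_succ_of_ne_zero (by omega : m ≠ 0)
    simp only [OrcN, Set.mem_ofPred_eq]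
    have : ∀ e x v, s ≠ code e x v := by
      intro e x v h
      have := code_length e x v
      rw [← h] at this
      omega
    simp [this]
  | succ k ih =>
    intro s hs n m hn hm
    obtain ⟨n, rfl⟩ := Nat.exists_eq_succ_of_ne_zero (by omega : n ≠ 0)
    obtain ⟨m, rfl⟩ := Nat.exists_eq_succ_of_ne_zero (by omega : m ≠ 0)
    simp only [OrcN, Set.mem_ofPred_eq]
    apply or_congr Iff.rfl
    apply exists_congr; intro e
    apply exists_congr; intro x
    apply and_congr_right
    intro h
    apply Acc_local
    intro q hq
    have := lam_lt_code e x (w e x)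
    rw [← h] at this
    apply ih q (by omega) n m (by omega) (by omega)

theorem mem_Orc (w : ℕ → Word → Word) (μ : Marks) (s : Word) :
    s ∈ Orc w μ ↔ InBase μ s ∨ ∃ e x, s = code e x (w e x) ∧ Acc (enum e) (Orc w μ) x := by
  unfold Orc
  simp only [Set.mem_ofPred_eq, OrcN]
  apply or_congr Iff.rfl
  apply exists_congr; intro e
  apply exists_congr; intro x
  apply and_congr_right
  intro h
  apply Acc_local
  intro q hq
  have := lam_lt_code e x (w e x)
  rw [← h] at this
  exact OrcN_stable w μ q.length q le_rfl s.length (q.length + 1) (by omega) (by omega)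

theorem not_inBase_code (μ : Marks) (e : ℕ) (x v : Word) : ¬ InBase μ (code e x v) := by
  rintro (⟨z, _, h⟩ | ⟨c, n, v', _, h⟩)
  · simp [code] at h
  · simp [code, markWord] at h

theorem code_mem (w : ℕ → Word → Word) (μ : Marks) (e : ℕ) (x v : Word) :
    code e x v ∈ Orc w μ ↔ v = w e x ∧ Acc (enum e) (Orc w μ) x := by
  rw [mem_Orc]
  constructor
  · rintro (h | ⟨e', x', h1, h2⟩)
    · exact absurd h (not_inBase_code _ _ _ _)
    · obtain ⟨rfl, rfl, rfl⟩ := code_inj h1
      exact ⟨rfl, h2⟩
  · rintro ⟨rfl, h⟩
    exact Or.inr ⟨e, x, rfl, h⟩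

theorem H_mem (w : ℕ → Word → Word) (μ : Marks) (z : Word) :
    false :: false :: z ∈ Orc w μ ↔ z ∈ Hset := by
  rw [mem_Orc]
  constructor
  · rintro ((⟨z', h, h2⟩ | ⟨c, n, v', _, h⟩) | ⟨e', x', h1, h2⟩)
    · simp only [List.cons.injEq, true_and] at h2; rw [h2]; exact h
    · simp [markWord] at h
    · simp [code] at h1
  · intro h
    exact Or.inl (Or.inl ⟨z, h, rfl⟩)

theorem mark_mem (w : ℕ → Word → Word) (μ : Marks) (c : Bool) (n : ℕ) (v : Word) (hn : 0 < n) :
    markWord c n v ∈ Orc w μ ↔ μ c n v := by
  rw [mem_Orc]
  constructor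
  · rintro ((⟨z', h, h2⟩ | ⟨c', n', v', h', h⟩) | ⟨e', x', h1, h2⟩)
    · simp [markWord] at h2
    · obtain ⟨rfl, rfl, rfl⟩ := markWord_inj hn (by omega) h
      exact h'
    · simp [markWord, code] at h1
  · intro h
    obtain ⟨n, rfl⟩ := Nat.exists_eq_succ_of_ne_zero hn.ne'
    exact Or.inl (Or.inr ⟨c, n, v, h, rfl⟩)

/-! ### Closed sets of queries -/

/-- `K` contains with each code word of the oracle the queries of an accepting computation -/
def Closed (O : Set Word) (K : Finset Word) : Prop :=
  ∀ e x v, code e x v ∈ K → code e x v ∈ O → ∃ y : Word,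
    y.length ≤ (enum e).2.2.eval x.length ∧
    runFor (enum e).1 O x y ((enum e).2.1.eval (x.length + y.length)) = .halt true ∧
    ∀ q ∈ Qs (enum e) O x y, q ∈ K

/-- code words in the oracle are correct -/
def Sound (O : Set Word) : Prop := ∀ e x v, code e x v ∈ O → Acc (enum e) O x

theorem sound_Orc (w : ℕ → Word → Word) (μ : Marks) : Sound (Orc w μ) := by
  intro e x v h
  exact ((code_mem w μ e x v).1 h).2

theorem closed_biUnion {O : Set Word} (L : Finset Word) (F : Word → Finset Word)
    (h : ∀ q ∈ L, Closed O (F q)) : Closed O (L.biUnion F) := by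
  intro e x v hK hO
  obtain ⟨q, hq, hq2⟩ := Finset.mem_biUnion.1 hK
  obtain ⟨y, h1, h2, h3⟩ := h q hq e x v hq2 hO
  exact ⟨y, h1, h2, fun q' hq' => Finset.mem_biUnion.2 ⟨q, hq, h3 q' hq'⟩⟩

theorem card_biUnion_bound (L : List Word) (F : Word → Finset Word) (B : ℕ)
    (hL : L.length ≤ B) (hq : ∀ q ∈ L, q.length ≤ B)
    (hF : ∀ q, (F q).card ≤ q.length + 1) : (L.toFinset.biUnion F).card ≤ B * (B + 1) := by
  calc (L.toFinset.biUnion F).card ≤ L.toFinset.card * (B + 1) := by
        apply Finset.card_biUnion_le_card_mul
        intro q hq'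
        have := hq q (by simpa using hq')
        have := hF q
        omega
    _ ≤ B * (B + 1) := by
        have := List.toFinset_card_le L
        gcongr
        omega

theorem exists_closed {O : Set Word} (hO : Sound O) :
    ∀ (k : ℕ) (s : Word), s.length ≤ k → ∃ K : Finset Word, s ∈ K ∧ Closed O K ∧
      K.card ≤ s.length + 1 ∧ ∀ q ∈ K, q.length ≤ s.length := by
  intro k
  induction k with
  | zero =>
    intro s hs
    refine ⟨{s}, by simp, ?_, by simp, by simp⟩
    intro e x v h _
    simp only [Finset.mem_singleton] at h
    have := code_length e x v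
    rw [h] at this
    omega
  | succ k ih =>
    intro s hs
    by_cases hc : ∃ e x v, s = code e x v ∧ code e x v ∈ O
    · obtain ⟨e, x, v, rfl, hmem⟩ := hc
      obtain ⟨y, hy, hr⟩ := hO e x v hmem
      have hlam := lam_lt_code e x v
      have hlen : ∀ q : Word, ∃ K : Finset Word, q.length ≤ k → (q ∈ K ∧ Closed O K ∧
          K.card ≤ q.length + 1 ∧ ∀ q' ∈ K, q'.length ≤ q.length) := by
        intro q
        by_cases hq : q.length ≤ k
        · obtain ⟨K, hK⟩ := ih q hq
          exact ⟨K, fun _ => hK⟩
        · exact ⟨∅, fun h => absurd h hq⟩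
      choose F0 hF0 using hlen
      let F : Word → Finset Word := fun q => if q.length ≤ k then F0 q else ∅
      have hF : ∀ q : Word, (F q).card ≤ q.length + 1 := by
        intro q
        by_cases hq : q.length ≤ k
        · simp only [F, hq, if_true]; exact (hF0 q hq).2.2.1
        · simp [F, hq]
      let L := Qs (enum e) O x y
      have hLB := Qs_bdd (i := enum e) (O := O) hy
      have hLk : ∀ q ∈ L, q.length ≤ k := by
        intro q hq
        have := hLB q hq
        omega
      have hFq : ∀ q ∈ L, F q = F0 q := by
        intro q hq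
        simp [F, hLk q hq]
      refine ⟨insert (code e x v) (L.toFinset.biUnion F), Finset.mem_insert_self _ _, ?_, ?_, ?_⟩
      · intro e' x' v' hK hO'
        rcases Finset.mem_insert.1 hK with h | h
        · obtain ⟨rfl, rfl, rfl⟩ := code_inj h
          refine ⟨y, hy, hr, ?_⟩
          intro q hq
          apply Finset.mem_insert_of_mem
          refine Finset.mem_biUnion.2 ⟨q, by simpa using hq, ?_⟩
          rw [hFq q hq]
          exact (hF0 q (hLk q hq)).1
        · have hcl : Closed O (L.toFinset.biUnion F) := by
            apply closed_biUnion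
            intro q hq
            have hq : q ∈ L := by simpa using hq
            rw [hFq q hq]
            exact (hF0 q (hLk q hq)).2.1
          obtain ⟨y', h1, h2, h3⟩ := hcl e' x' v' h hO'
          exact ⟨y', h1, h2, fun q hq => Finset.mem_insert_of_mem (h3 q hq)⟩
      · refine (Finset.card_insert_le _ _).trans ?_
        have h1 := card_biUnion_bound L F _ (Qs_length (i := enum e) (O := O) hy) hLB hF
        have h2 := code_length e x v
        have h3 : ((lam (enum e)).eval x.length) * ((lam (enum e)).eval x.length + 1) ≤ ell e x := by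
          unfold ell
          nlinarith [Nat.zero_le ((lam (enum e)).eval x.length)]
        omega
      · intro q hq
        rcases Finset.mem_insert.1 hq with h | h
        · rw [h]
        · obtain ⟨q', hq', hq2⟩ := Finset.mem_biUnion.1 h
          have hq' : q' ∈ L := by simpa using hq'
          rw [hFq q' hq'] at hq2
          have h1 := (hF0 q' (hLk q' hq')).2.2.2 q hq2
          have h2 := hLB q' hq'
          omega
    · refine ⟨{s}, by simp, ?_, by simp, by simp⟩
      intro e x v h h2
      simp only [Finset.mem_singleton] at h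
      exact absurd ⟨e, x, v, h.symm, h2⟩ hc

theorem exists_closed_run {O : Set Word} (hO : Sound O) (i : NPM) (x : Word)
    (hacc : Acc i O x) : ∃ K : Finset Word, Closed O K ∧
      K.card ≤ (lam i).eval x.length * ((lam i).eval x.length + 1) ∧
      (∀ q ∈ K, q.length ≤ (lam i).eval x.length) ∧
      ∃ y : Word, y.length ≤ i.2.2.eval x.length ∧
        runFor i.1 O x y (i.2.1.eval (x.length + y.length)) = .halt true ∧
        ∀ q ∈ Qs i O x y, q ∈ K := by
  obtain ⟨y, hy, hr⟩ := hacc
  have h := fun s : Word => exists_closed hO s.length s le_rfl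
  choose F hF using h
  have hLB := Qs_bdd (i := i) (O := O) hy
  refine ⟨(Qs i O x y).toFinset.biUnion F, ?_, ?_, ?_, y, hy, hr, ?_⟩
  · apply closed_biUnion
    intro q _
    exact (hF q).2.1
  · exact card_biUnion_bound _ F _ (Qs_length hy) hLB (fun q => (hF q).2.2.1)
  · intro q hq
    obtain ⟨q', hq', hq2⟩ := Finset.mem_biUnion.1 hq
    have hq' : q' ∈ Qs i O x y := by simpa using hq'
    have h1 := (hF q').2.2.2 q hq2
    have h2 := hLB q' hq'
    omega
  · intro q hq
    exact Finset.mem_biUnion.2 ⟨q, by simpa using hq, (hF q).1⟩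

/-! ### Comparing oracles -/

/-- the data agree below `N` -/
def Ext (N : ℕ) (w : ℕ → Word → Word) (μ : Marks) (w' : ℕ → Word → Word) (μ' : Marks) : Prop :=
  (∀ e x, ell e x < N → w e x = w' e x) ∧ (∀ c n v, n < N → (μ c n v ↔ μ' c n v))

theorem agree {N : ℕ} {w w' : ℕ → Word → Word} {μ μ' : Marks} (h : Ext N w μ w' μ') :
    ∀ (k : ℕ) (s : Word), s.length ≤ k → s.length < N → (s ∈ Orc w μ ↔ s ∈ Orc w' μ') := by
  intro k
  induction k with
  | zero =>
    intro s hs _
    rw [mem_Orc, mem_Orc]
    have h1 : ∀ e x v, s ≠ code e x v := by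
      intro e x v h
      have := code_length e x v
      rw [← h] at this
      omega
    have h2 : ∀ c n v, s ≠ markWord c n v := by
      intro c n v h
      have := markWord_length c n v
      rw [← h] at this
      omega
    simp [InBase, h1, h2]
  | succ k ih =>
    intro s hs hN
    rw [mem_Orc, mem_Orc]
    apply or_congr
    · unfold InBase
      apply or_congr Iff.rfl
      apply exists_congr; intro c
      apply exists_congr; intro n
      apply exists_congr; intro v
      apply and_congr_left
      intro hs
      apply h.2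
      have := markWord_length c (n + 1) v
      rw [← hs] at this
      omega
    · apply exists_congr; intro e
      apply exists_congr; intro x
      have key : ∀ v, s = code e x v → ell e x < N ∧
          (Acc (enum e) (Orc w μ) x ↔ Acc (enum e) (Orc w' μ') x) := by
        intro v hv
        have h1 := code_length e x v
        have h2 := lam_lt_code e x v
        rw [← hv] at h1 h2
        refine ⟨by omega, ?_⟩
        apply Acc_local
        intro q hq
        exact ih q (by omega) (by omega)
      constructor
      · rintro ⟨h1, h2⟩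
        obtain ⟨h3, h4⟩ := key _ h1
        exact ⟨by rw [← h.1 e x h3]; exact h1, h4.1 h2⟩
      · rintro ⟨h1, h2⟩
        obtain ⟨h3, h4⟩ := key _ h1
        exact ⟨by rw [h.1 e x h3]; exact h1, h4.2 h2⟩

theorem dead_change {w w' : ℕ → Word → Word} {μ : Marks} {e : ℕ} {x : Word}
    (hw : ∀ e' x', (e', x') ≠ (e, x) → w' e' x' = w e' x')
    (hd : ¬ Acc (enum e) (Orc w μ) x) : Orc w' μ = Orc w μ := by
  have key : ∀ (k : ℕ) (s : Word), s.length ≤ k → (s ∈ Orc w' μ ↔ s ∈ Orc w μ) := by
    intro k
    induction k with
    | zero =>
      intro s hs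
      rw [mem_Orc, mem_Orc]
      have h1 : ∀ e x v, s ≠ code e x v := by
        intro e x v h
        have := code_length e x v
        rw [← h] at this
        omega
      simp [h1]
    | succ k ih =>
      intro s hs
      rw [mem_Orc, mem_Orc]
      apply or_congr Iff.rfl
      apply exists_congr; intro e'
      apply exists_congr; intro x'
      have hacc : ∀ v, s = code e' x' v →
          (Acc (enum e') (Orc w' μ) x' ↔ Acc (enum e') (Orc w μ) x') := by
        intro v hv
        have h2 := lam_lt_code e' x' v
        rw [← hv] at h2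
        apply Acc_local
        intro q hq
        exact ih q (by omega)
      by_cases hex : (e', x') = (e, x)
      · obtain ⟨rfl, rfl⟩ := Prod.mk.inj hex
        constructor
        · rintro ⟨h1, h2⟩
          exact absurd ((hacc _ h1).1 h2) hd
        · rintro ⟨h1, h2⟩
          exact absurd h2 hd
      · rw [hw e' x' hex]
        constructor
        · rintro ⟨h1, h2⟩
          exact ⟨h1, (hacc _ h1).1 h2⟩
        · rintro ⟨h1, h2⟩
          exact ⟨h1, (hacc _ h1).2 h2⟩
  ext s
  exact key s.length s le_rfl

/-! ### The counting lemma -/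

theorem counting {I V X W : Type*} [Fintype I] [DecidableEq I] [Fintype V] (F : (I → V) → X)
    (K : X → Finset W) (q : ℕ) (hK : ∀ ω, (K (F ω)).card ≤ q) (str : I → V → W)
    (hinj : ∀ i v i' v', str i v = str i' v' → i = i' ∧ v = v') (dead : X → Set I)
    (hdead : ∀ ω i v, i ∈ dead (F ω) → F (Function.update ω i v) = F ω)
    (Bad : Finset (I → V)) (hBad : ∀ ω ∈ Bad, ∃ i ∈ dead (F ω), str i (ω i) ∈ K (F ω)) :
    Bad.card * Fintype.card V ≤ q * Fintype.card (I → V) := by
  have hch : ∀ ω : {ω // ω ∈ Bad}, ∃ j, j ∈ dead (F ω.1) ∧ str j (ω.1 j) ∈ K (F ω.1) := by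
    intro ω
    exact hBad ω.1 ω.2
  choose idx hidx1 hidx2 using hch
  let T : Finset (Σ _ : I → V, W) := Finset.univ.sigma (fun ω => K (F ω))
  have hT : T.card ≤ q * Fintype.card (I → V) := by
    rw [Finset.card_sigma]
    calc ∑ ω : I → V, (K (F ω)).card ≤ ∑ _ω : I → V, q := Finset.sum_le_sum (fun ω _ => hK ω)
      _ = q * Fintype.card (I → V) := by rw [Finset.sum_const, Finset.card_univ]; simp [mul_comm]
  let g : {ω // ω ∈ Bad} × V → {t // t ∈ T} := fun p =>
    ⟨⟨Function.update p.1.1 (idx p.1) p.2, str (idx p.1) (p.1.1 (idx p.1))⟩, by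
      refine Finset.mem_sigma.2 ⟨Finset.mem_univ _, ?_⟩
      show str (idx p.1) (p.1.1 (idx p.1)) ∈ K (F (Function.update p.1.1 (idx p.1) p.2))
      rw [hdead _ _ _ (hidx1 p.1)]
      exact hidx2 p.1⟩
  have hg : Function.Injective g := by
    rintro ⟨ω, v⟩ ⟨ω', v'⟩ h
    have h1 := congrArg Subtype.val h
    simp only [g] at h1
    obtain ⟨h2, h3⟩ := Sigma.mk.inj h1
    have h3 := eq_of_heq h3
    obtain ⟨h4, h5⟩ := hinj _ _ _ _ h3
    rw [← h4] at h2 h5
    have h6 : v = v' := by
      have := congrFun h2 (idx ω)
      simpa using this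
    have h7 : ω.1 = ω'.1 := by
      funext k
      by_cases hk : k = idx ω
      · rw [hk]; exact h5
      · have := congrFun h2 k
        simpa [Function.update_of_ne hk] using this
    have h8 : ω = ω' := Subtype.ext h7
    rw [h6, h8]
  have hcard := Fintype.card_le_of_injective g hg
  rw [Fintype.card_prod, Fintype.card_coe, Fintype.card_coe] at hcard
  exact hcard.trans hT

/-! ### The languages for the failure of the shrinking property and for the hard pair -/

/-- the language decided by guessing `y` and asking the oracle -/
def LangG (b c1 c2 : Bool) (O : Set Word) : Set Word :=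
  {x | false :: false :: x ∈ O ∧
    ∃ y : Word, y.length ≤ x.length ∧ c1 :: c2 :: (pairs (y.reverse ++ [b]) ++ x) ∈ O}

theorem lang_rep (w : ℕ → Word → Word) (μ : Marks) (c : Bool) (n : ℕ) (hn : 0 < n) :
    List.replicate n false ∈ LangG false true c (Orc w μ) ↔ ∃ v : Word, v.length ≤ n ∧ μ c n v := by
  constructor
  · rintro ⟨_, y, hy, h⟩
    refine ⟨y.reverse, by simpa using hy, ?_⟩
    exact (mark_mem w μ c n y.reverse hn).1 h
  · rintro ⟨v, hv, h⟩
    refine ⟨?_, v.reverse, by simpa using hv, ?_⟩
    · rw [H_mem]
      obtain ⟨n, rfl⟩ := Nat.exists_eq_succ_of_ne_zero hn.ne'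
      exact Or.inr ⟨n, rfl⟩
    · rw [List.reverse_reverse]
      exact (mark_mem w μ c n v hn).2 h

/-- the requirement of a stage -/
def Req (mach : Bool → NPM) (O : Set Word) : Prop :=
  ∃ n, 0 < n ∧ ((∀ c, Acc (mach c) O (List.replicate n false)) ∨
    ∃ c, List.replicate n false ∈ LangG false true c O ∧
      List.replicate n false ∉ LangG false true (!c) O ∧
      ¬ Acc (mach c) O (List.replicate n false))

/-- the data is well-formed and has no marks at levels at least `N` -/
def Valid (N : ℕ) (w : ℕ → Word → Word) (μ : Marks) : Prop :=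
  (∀ e x, (w e x).length = ell e x ∧ [true, false] <:+ w e x) ∧ ∀ c n v, N ≤ n → ¬ μ c n v

/-- indices of the random choices -/
abbrev Idx (D : Finset (ℕ × Word)) : Type := Bool ⊕ {p // p ∈ D}

/-- the tail making the random word a witness of the right length -/
noncomputable def tl (n e : ℕ) (x : Word) : Word :=
  List.replicate (ell e x - n - 2) false ++ [true, false]

noncomputable def wit (n : ℕ) (D : Finset (ℕ × Word)) (w : ℕ → Word → Word)
    (om : Idx D → List.Vector Bool n) : ℕ → Word → Word :=
  fun e x => if h : (e, x) ∈ D then (om (.inr ⟨(e, x), h⟩)).1 ++ tl n e x else w e x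

def mks (n : ℕ) (D : Finset (ℕ × Word)) (μ : Marks) (s : Bool → Prop)
    (om : Idx D → List.Vector Bool n) : Marks :=
  fun c k v => μ c k v ∨ (s c ∧ k = n ∧ v = (om (.inl c)).1)

noncomputable def World (n : ℕ) (D : Finset (ℕ × Word)) (w : ℕ → Word → Word) (μ : Marks)
    (s : Bool → Prop) (om : Idx D → List.Vector Bool n) : Set Word :=
  Orc (wit n D w om) (mks n D μ s om)

def dead (D : Finset (ℕ × Word)) (c : Bool) (O : Set Word) : Set (Idx D) :=
  {i | i = .inl (!c) ∨ ∃ p : {p // p ∈ D}, i = .inr p ∧ ¬ Acc (enum p.1.1) O p.1.2}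

noncomputable def strI (n : ℕ) (D : Finset (ℕ × Word)) : Idx D → List.Vector Bool n → Word
  | .inl c, v => markWord c n v.1
  | .inr p, v => code p.1.1 p.1.2 (v.1 ++ tl n p.1.1 p.1.2)

theorem strI_inj {n : ℕ} (hn : 0 < n) (D : Finset (ℕ × Word)) (i : Idx D)
    (v : List.Vector Bool n) (i' : Idx D) (v' : List.Vector Bool n)
    (h : strI n D i v = strI n D i' v') : i = i' ∧ v = v' := by
  rcases i with c | p <;> rcases i' with c' | p'
  · obtain ⟨h1, _, h3⟩ := markWord_inj hn hn h
    exact ⟨by rw [h1], Subtype.ext h3⟩
  · simp [strI, markWord, code] at h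
  · simp [strI, markWord, code] at h
  · obtain ⟨h1, h2, h3⟩ := code_inj h
    have h4 : p = p' := Subtype.ext (Prod.ext h1 h2)
    subst h4
    exact ⟨rfl, Subtype.ext (List.append_cancel_right h3)⟩

theorem dead_world (n : ℕ) (D : Finset (ℕ × Word)) (w : ℕ → Word → Word) (μ : Marks) (c : Bool)
    (om : Idx D → List.Vector Bool n) (i : Idx D) (v : List.Vector Bool n)
    (hi : i ∈ dead D c (World n D w μ (fun c' => c' = c) om)) :
    World n D w μ (fun c' => c' = c) (Function.update om i v) =
      World n D w μ (fun c' => c' = c) om := by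
  rcases hi with rfl | ⟨p, rfl, hp⟩
  · have h1 : wit n D w (Function.update om (.inl (!c)) v) = wit n D w om := by
      funext e x
      unfold wit
      by_cases h : (e, x) ∈ D
      · rw [dif_pos h, dif_pos h, Function.update_of_ne (by simp)]
      · rw [dif_neg h, dif_neg h]
    have h2 : mks n D μ (fun c' => c' = c) (Function.update om (.inl (!c)) v) =
        mks n D μ (fun c' => c' = c) om := by
      funext c' k u
      unfold mks
      by_cases h : c' = c
      · subst h
        rw [Function.update_of_ne (by simp)]
      · simp [h]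
    unfold World
    rw [h1, h2]
  · have h2 : mks n D μ (fun c' => c' = c) (Function.update om (.inr p) v) =
        mks n D μ (fun c' => c' = c) om := by
      funext c' k u
      unfold mks
      rw [Function.update_of_ne (by simp)]
    unfold World
    rw [h2]
    apply dead_change (e := p.1.1) (x := p.1.2)
    · intro e' x' hne
      unfold wit
      by_cases h : (e', x') ∈ D
      · rw [dif_pos h, dif_pos h, Function.update_of_ne]
        intro h3
        apply hne
        have := Sum.inr.inj h3
        exact congrArg Subtype.val this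
      · rw [dif_neg h, dif_neg h]
    · exact hp

theorem world_ext {n : ℕ} {D : Finset (ℕ × Word)} (hD : ∀ p ∈ D, n + 2 ≤ ell p.1 p.2)
    (w : ℕ → Word → Word) (μ : Marks) (s : Bool → Prop) (om : Idx D → List.Vector Bool n) :
    Ext n w μ (wit n D w om) (mks n D μ s om) := by
  constructor
  · intro e x h
    unfold wit
    rw [dif_neg]
    intro h2
    have := hD _ h2
    simp only at this
    omega
  · intro c k v hk
    unfold mks
    constructor
    · intro h; exact Or.inl h
    · rintro (h | ⟨_, h, _⟩)
      · exact h
      · omega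

theorem world_short {n : ℕ} {D : Finset (ℕ × Word)} (hD : ∀ p ∈ D, n + 2 ≤ ell p.1 p.2)
    (w : ℕ → Word → Word) (μ : Marks) (s s' : Bool → Prop) (om : Idx D → List.Vector Bool n)
    (q : Word) (hq : q.length < n) : q ∈ World n D w μ s om ↔ q ∈ World n D w μ s' om := by
  rw [World, World, ← agree (world_ext hD w μ s om) q.length q le_rfl hq,
    ← agree (world_ext hD w μ s' om) q.length q le_rfl hq]

theorem world_valid {n N : ℕ} {D : Finset (ℕ × Word)} (hD : ∀ p ∈ D, n + 2 ≤ ell p.1 p.2)
    {w : ℕ → Word → Word} {μ : Marks} (hv : Valid N w μ) {N' : ℕ} (hN' : N ≤ N') (hn : n < N')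
    (s : Bool → Prop) (om : Idx D → List.Vector Bool n) :
    Valid N' (wit n D w om) (mks n D μ s om) := by
  constructor
  · intro e x
    unfold wit
    by_cases h : (e, x) ∈ D
    · rw [dif_pos h]
      have := hD _ h
      simp only at this
      constructor
      · rw [List.length_append, (om _).2, tl, List.length_append, List.length_replicate]
        simp
        omega
      · unfold tl
        refine ⟨(om (.inr ⟨(e, x), h⟩)).1 ++ List.replicate (ell e x - n - 2) false, ?_⟩
        simp
    · rw [dif_neg h]
      exact hv.1 e x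
  · intro c k v hk h
    rcases h with h | ⟨_, h, _⟩
    · exact hv.2 c k v (by omega) h
    · omega

theorem preserve {n m : ℕ} {D : Finset (ℕ × Word)}
    (hD : ∀ p, p ∈ D ↔ p.1 ≤ m ∧ p.2.length ≤ m ∧ n + 2 ≤ ell p.1 p.2)
    (w : ℕ → Word → Word) (μ : Marks) (c : Bool) (om : Idx D → List.Vector Bool n)
    (K : Finset Word) (hcl : Closed (World n D w μ (fun c' => c' = c) om) K)
    (hm : ∀ q ∈ K, q.length ≤ m)
    (hgood : ∀ i ∈ dead D c (World n D w μ (fun c' => c' = c) om), strI n D i (om i) ∉ K) :
    ∀ (k : ℕ) (s : Word), s.length ≤ k → s ∈ K →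
      (s ∈ World n D w μ (fun c' => c' = c) om ↔ s ∈ World n D w μ (fun _ => True) om) := by
  have hD' : ∀ p ∈ D, n + 2 ≤ ell p.1 p.2 := fun p hp => ((hD p).1 hp).2.2
  intro k
  induction k with
  | zero =>
    intro s hs _
    have h1 : ∀ e x v, s ≠ code e x v := by
      intro e x v h
      have := code_length e x v
      rw [← h] at this
      omega
    have h2 : ∀ c n v, s ≠ markWord c n v := by
      intro c n v h
      have := markWord_length c n v
      rw [← h] at this
      omega
    rw [World, World, mem_Orc, mem_Orc]
    simp [InBase, h1, h2]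
  | succ k ih =>
    intro s hs hK
    constructor
    · intro h
      have h' := h
      rw [World, mem_Orc] at h
      rw [World, mem_Orc]
      rcases h with h | ⟨e, x, h1, h2⟩
      · left
        rcases h with h | ⟨c', k', v, h3, h4⟩
        · exact Or.inl h
        · refine Or.inr ⟨c', k', v, ?_, h4⟩
          rcases h3 with h3 | ⟨_, h5, h6⟩
          · exact Or.inl h3
          · exact Or.inr ⟨trivial, h5, h6⟩
      · right
        refine ⟨e, x, h1, ?_⟩
        rw [h1] at hK h'
        obtain ⟨y, hy1, hy2, hy3⟩ := hcl e x _ hK h'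
        refine ⟨y, hy1, ?_⟩
        have hlam := lam_lt_code e x (wit n D w om e x)
        rw [← h1] at hlam
        have hq : ∀ q ∈ Qs (enum e) (World n D w μ (fun c' => c' = c) om) x y,
            (q ∈ World n D w μ (fun c' => c' = c) om ↔ q ∈ World n D w μ (fun _ => True) om) := by
          intro q hq
          have := Qs_bdd hy1 q hq
          exact ih q (by omega) (hy3 q hq)
        have := run_local hq
        rw [World, World] at this
        rw [← this]
        exact hy2
    · intro h
      rw [World, mem_Orc] at h
      rw [World, mem_Orc]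
      rcases h with h | ⟨e, x, h1, h2⟩
      · left
        rcases h with h | ⟨c', k', v, h3, h4⟩
        · exact Or.inl h
        · refine Or.inr ⟨c', k', v, ?_, h4⟩
          rcases h3 with h3 | ⟨_, h5, h6⟩
          · exact Or.inl h3
          · by_cases hc : c' = c
            · exact Or.inr ⟨hc, h5, h6⟩
            · exfalso
              have hc' : c' = !c := by
                cases c <;> cases c' <;> simp_all
              subst hc'
              apply hgood (.inl (!c)) (Or.inl rfl)
              show markWord (!c) n (om (.inl (!c))).1 ∈ K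
              rw [← h6, ← h5, ← h4]
              exact hK
      · right
        refine ⟨e, x, h1, ?_⟩
        by_contra hacc
        by_cases hmem : (e, x) ∈ D
        · apply hgood (.inr ⟨(e, x), hmem⟩) (Or.inr ⟨⟨(e, x), hmem⟩, rfl, hacc⟩)
          show code e x ((om (.inr ⟨(e, x), hmem⟩)).1 ++ tl n e x) ∈ K
          have h3 : wit n D w om e x = (om (.inr ⟨(e, x), hmem⟩)).1 ++ tl n e x := by
            unfold wit
            rw [dif_pos hmem]
          rw [← h3, ← h1]
          exact hK
        · have h3 := hm s hK
          have h4 := code_length e x (wit n D w om e x)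
          rw [← h1] at h4
          have h5 : ell e x < n + 2 := by
            by_contra h6
            apply hmem
            rw [hD]
            simp only
            omega
          have h6 := lam_lt_ell e x
          apply hacc
          refine (Acc_local ?_).1 h2
          intro q hq
          exact world_short hD' w μ _ _ om q (by omega)

theorem exists_level (mach : Bool → NPM) (N : ℕ) : ∃ n, N < n ∧
    ∀ c, 2 * ((lam (mach c)).eval n * ((lam (mach c)).eval n + 1)) < 2 ^ n := by
  have h1 := poly_lt_two_pow (lam (mach false) * (lam (mach false) + 1)) 2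
  have h2 := poly_lt_two_pow (lam (mach true) * (lam (mach true) + 1)) 2
  obtain ⟨n, ⟨h3, h4⟩, h5⟩ := ((h1.and h2).and (Filter.eventually_gt_atTop N)).exists
  refine ⟨n, h5, ?_⟩
  rw [Polynomial.eval_mul, Polynomial.eval_add, Polynomial.eval_one] at h3 h4
  intro c
  cases c
  · exact h3
  · exact h4

theorem stage (mach : Bool → NPM) (N : ℕ) (w : ℕ → Word → Word) (μ : Marks)
    (hv : Valid N w μ) : ∃ (N' : ℕ) (w' : ℕ → Word → Word) (μ' : Marks), N < N' ∧
      Valid N' w' μ' ∧ Ext N w μ w' μ' ∧
      ∀ w'' μ'', Ext N' w' μ' w'' μ'' → Req mach (Orc w'' μ'') := by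
  obtain ⟨n, hn, hpoly⟩ := exists_level mach N
  have hn0 : 0 < n := by omega
  set X : Word := List.replicate n false with hX
  have hXl : X.length = n := by simp [hX]
  set m : ℕ := max ((lam (mach false)).eval n) ((lam (mach true)).eval n) with hm
  have hlam : ∀ c, (lam (mach c)).eval X.length ≤ m := by
    intro c
    rw [hXl]
    cases c
    · exact le_max_left _ _
    · exact le_max_right _ _
  let D : Finset (ℕ × Word) :=
    ((Finset.range (m + 1)) ×ˢ (List.finite_length_le Bool m).toFinset).filter
      (fun p => n + 2 ≤ ell p.1 p.2)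
  have hD : ∀ p, p ∈ D ↔ p.1 ≤ m ∧ p.2.length ≤ m ∧ n + 2 ≤ ell p.1 p.2 := by
    intro p
    simp only [D, Finset.mem_filter, Finset.mem_product, Finset.mem_range, Set.Finite.mem_toFinset,
      Set.mem_ofPred_eq]
    constructor
    · rintro ⟨⟨h1, h2⟩, h3⟩; exact ⟨by omega, h2, h3⟩
    · rintro ⟨h1, h2, h3⟩; exact ⟨⟨by omega, h2⟩, h3⟩
  have hD' : ∀ p ∈ D, n + 2 ≤ ell p.1 p.2 := fun p hp => ((hD p).1 hp).2.2
  have hNn : max n m + 1 > N := by omega
  have hshort : ∀ (s : Bool → Prop) (om : Idx D → List.Vector Bool n) w'' μ'',
      Ext (max n m + 1) (wit n D w om) (mks n D μ s om) w'' μ'' → ∀ c,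
      (Acc (mach c) (World n D w μ s om) X ↔ Acc (mach c) (Orc w'' μ'') X) := by
    intro s om w'' μ'' hext c
    apply Acc_local
    intro q hq
    have := hlam c
    exact agree hext q.length q le_rfl (by omega)
  have hExtN : ∀ (s : Bool → Prop) (om : Idx D → List.Vector Bool n),
      Ext N w μ (wit n D w om) (mks n D μ s om) := by
    intro s om
    have h := world_ext hD' w μ s om
    exact ⟨fun e x h1 => h.1 e x (by omega), fun c k v h1 => h.2 c k v (by omega)⟩
  by_cases hcase : ∃ (c : Bool) (om : Idx D → List.Vector Bool n),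
      ¬ Acc (mach c) (World n D w μ (fun c' => c' = c) om) X
  · obtain ⟨c, om, hacc⟩ := hcase
    refine ⟨max n m + 1, wit n D w om, mks n D μ (fun c' => c' = c) om, hNn,
      world_valid hD' hv (by omega) (by omega) _ om, hExtN _ _, ?_⟩
    intro w'' μ'' hext
    refine ⟨n, hn0, Or.inr ⟨c, ?_, ?_, ?_⟩⟩
    · rw [lang_rep _ _ _ _ hn0]
      refine ⟨(om (.inl c)).1, by rw [(om _).2], ?_⟩
      rw [← hext.2 c n _ (by omega)]
      exact Or.inr ⟨rfl, rfl, rfl⟩
    · rw [lang_rep _ _ _ _ hn0]
      rintro ⟨v, _, hmk⟩
      rw [← hext.2 (!c) n v (by omega)] at hmk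
      rcases hmk with hmk | ⟨hmk, _⟩
      · exact hv.2 _ _ _ (by omega) hmk
      · simp at hmk
    · rw [← hshort _ om w'' μ'' hext c]
      exact hacc
  · have hacc : ∀ (c : Bool) (om : Idx D → List.Vector Bool n),
        Acc (mach c) (World n D w μ (fun c' => c' = c) om) X := by
      intro c om
      by_contra h
      exact hcase ⟨c, om, h⟩
    -- the closed sets
    have hKex : ∀ (c : Bool) (O : Set Word), ∃ K : Finset Word,
        (Sound O ∧ Acc (mach c) O X) → (Closed O K ∧
          K.card ≤ (lam (mach c)).eval X.length * ((lam (mach c)).eval X.length + 1) ∧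
          (∀ q ∈ K, q.length ≤ (lam (mach c)).eval X.length) ∧
          ∃ y : Word, y.length ≤ (mach c).2.2.eval X.length ∧
            runFor (mach c).1 O X y ((mach c).2.1.eval (X.length + y.length)) = .halt true ∧
            ∀ q ∈ Qs (mach c) O X y, q ∈ K) := by
      intro c O
      by_cases h : Sound O ∧ Acc (mach c) O X
      · obtain ⟨K, hK⟩ := exists_closed_run h.1 (mach c) X h.2
        exact ⟨K, fun _ => hK⟩
      · exact ⟨∅, fun h' => absurd h' h⟩
    choose K hK using hKex
    have hcond : ∀ (c : Bool) (om : Idx D → List.Vector Bool n),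
        Sound (World n D w μ (fun c' => c' = c) om) ∧
          Acc (mach c) (World n D w μ (fun c' => c' = c) om) X :=
      fun c om => ⟨sound_Orc _ _, hacc c om⟩
    have hcount : ∀ c : Bool, 2 * (Finset.univ.filter (fun om : Idx D → List.Vector Bool n =>
        ∃ i ∈ dead D c (World n D w μ (fun c' => c' = c) om),
          strI n D i (om i) ∈ K c (World n D w μ (fun c' => c' = c) om))).card <
        Fintype.card (Idx D → List.Vector Bool n) := by
      intro c
      have h1 := counting (fun om : Idx D → List.Vector Bool n =>
        World n D w μ (fun c' => c' = c) om) (K c)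
        ((lam (mach c)).eval n * ((lam (mach c)).eval n + 1))
        (fun om => by
          have := (hK c _ (hcond c om)).2.1
          rw [hXl] at this
          exact this)
        (strI n D) (strI_inj hn0 D) (dead D c)
        (fun om i v hi => dead_world n D w μ c om i v hi)
        (Finset.univ.filter (fun om : Idx D → List.Vector Bool n =>
        ∃ i ∈ dead D c (World n D w μ (fun c' => c' = c) om),
          strI n D i (om i) ∈ K c (World n D w μ (fun c' => c' = c) om)))
        (fun om hom => (Finset.mem_filter.1 hom).2)
      have h2 : Fintype.card (List.Vector Bool n) = 2 ^ n := by simp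
      rw [h2] at h1
      have h3 := hpoly c
      have h4 : 0 < Fintype.card (Idx D → List.Vector Bool n) := Fintype.card_pos
      set A := (Finset.univ.filter (fun om : Idx D → List.Vector Bool n =>
        ∃ i ∈ dead D c (World n D w μ (fun c' => c' = c) om),
          strI n D i (om i) ∈ K c (World n D w μ (fun c' => c' = c) om))).card
      set Q := (lam (mach c)).eval n * ((lam (mach c)).eval n + 1)
      set T := Fintype.card (Idx D → List.Vector Bool n)
      by_contra h5
      have h5 : T ≤ 2 * A := by omega
      have h6 : T * 2 ^ n ≤ 2 * Q * T := by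
        calc T * 2 ^ n ≤ 2 * A * 2 ^ n := by gcongr
          _ = 2 * (A * 2 ^ n) := by ring
          _ ≤ 2 * (Q * T) := by gcongr
          _ = 2 * Q * T := by ring
      have h7 : 2 * Q * T < T * 2 ^ n := by
        rw [mul_comm T]
        exact Nat.mul_lt_mul_of_pos_right h3 h4
      omega
    have hgood : ∃ om : Idx D → List.Vector Bool n, ∀ c : Bool,
        ∀ i ∈ dead D c (World n D w μ (fun c' => c' = c) om),
          strI n D i (om i) ∉ K c (World n D w μ (fun c' => c' = c) om) := by
      by_contra hno
      have hno : ∀ om : Idx D → List.Vector Bool n, ∃ c : Bool,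
        ∃ i ∈ dead D c (World n D w μ (fun c' => c' = c) om),
          strI n D i (om i) ∈ K c (World n D w μ (fun c' => c' = c) om) := by
        intro om
        by_contra h
        apply hno
        refine ⟨om, fun c i hi hK' => h ⟨c, i, hi, hK'⟩⟩
      have h1 := hcount false
      have h2 := hcount true
      set Af := (Finset.univ.filter (fun om : Idx D → List.Vector Bool n =>
        ∃ i ∈ dead D false (World n D w μ (fun c' => c' = false) om),
          strI n D i (om i) ∈ K false (World n D w μ (fun c' => c' = false) om)))
      set At := (Finset.univ.filter (fun om : Idx D → List.Vector Bool n =>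
        ∃ i ∈ dead D true (World n D w μ (fun c' => c' = true) om),
          strI n D i (om i) ∈ K true (World n D w μ (fun c' => c' = true) om)))
      have h3 : (Finset.univ : Finset (Idx D → List.Vector Bool n)) ⊆ Af ∪ At := by
        intro om _
        obtain ⟨c, hc⟩ := hno om
        cases c
        · exact Finset.mem_union_left _ (Finset.mem_filter.2 ⟨Finset.mem_univ _, hc⟩)
        · exact Finset.mem_union_right _ (Finset.mem_filter.2 ⟨Finset.mem_univ _, hc⟩)
      have h4 := Finset.card_le_card h3
      have h5 := Finset.card_union_le Af At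
      rw [Finset.card_univ] at h4
      omega
    obtain ⟨om, hgood⟩ := hgood
    refine ⟨max n m + 1, wit n D w om, mks n D μ (fun _ => True) om, hNn,
      world_valid hD' hv (by omega) (by omega) _ om, hExtN _ _, ?_⟩
    intro w'' μ'' hext
    refine ⟨n, hn0, Or.inl ?_⟩
    intro c
    rw [← hshort _ om w'' μ'' hext c]
    obtain ⟨hc1, hc2, hc3, y, hy1, hy2, hy3⟩ := hK c _ (hcond c om)
    refine ⟨y, hy1, ?_⟩
    have hpres := preserve hD w μ c om _ hc1 (fun q hq => (hc3 q hq).trans (hlam c)) (hgood c)
    rw [← run_local (O := World n D w μ (fun c' => c' = c) om)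
      (fun q hq => hpres q.length q le_rfl (hy3 q hq))]
    exact hy2

/-! ### The verifier program -/

theorem upd0 (u v u' : Word) : Function.update (stk u v) 0 u' = stk u' v := by
  funext i
  match i with
  | 0 => rfl
  | 1 => rfl
  | (n + 2) => rfl

theorem upd1 (u v v' : Word) : Function.update (stk u v) 1 v' = stk u v' := by
  funext i
  match i with
  | 0 => rfl
  | 1 => rfl
  | (n + 2) => rfl

theorem stk0 (u v : Word) : stk u v 0 = u := rfl
theorem stk1 (u v : Word) : stk u v 1 = v := rfl

/-- the verifier program -/
def progV (b c1 c2 : Bool) : List Instr :=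
  [ .push 0 false 1,    -- 0
    .push 0 false 2,    -- 1
    .query 0 3 14,      -- 2
    .pop 0 4 4 4,       -- 3
    .pop 0 5 5 5,       -- 4
    .push 0 b 6,        -- 5
    .push 0 true 7,     -- 6
    .pop 1 10 8 9,      -- 7
    .push 0 false 6,    -- 8
    .push 0 true 6,     -- 9
    .push 0 c2 11,      -- 10
    .push 0 c1 12,      -- 11
    .query 0 13 14,     -- 12
    .stop true,         -- 13
    .stop false ]       -- 14

section progV
variable (b c1 c2 : Bool) (O : Set Word)

theorem V_loop (y : Word) : ∀ (b' : Bool) (z : Word),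
    (step (progV b c1 c2) O)^[3 * y.length + 2] (.run 6 (stk (b' :: z) y)) =
      .run 10 (stk (pairs (y.reverse ++ [b']) ++ z) []) := by
  induction y with
  | nil =>
    intro b' z
    simp [step, progV, exec, upd0, stk0, stk1, pairs]
  | cons c y ih =>
    intro b' z
    have h1 : (step (progV b c1 c2) O)^[3] (.run 6 (stk (b' :: z) (c :: y))) =
        .run 6 (stk (c :: true :: b' :: z) y) := by
      cases c <;> simp [step, progV, exec, upd0, upd1, stk0, stk1]
    have h2 : 3 * (c :: y).length + 2 = (3 * y.length + 2) + 3 := by
      simp [List.length_cons]; ring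
    rw [h2, Function.iterate_add_apply, h1, ih c (true :: b' :: z)]
    congr 2
    simp [pairs_append, pairs]

theorem V_run (x y : Word) : runFor (progV b c1 c2) O x y (3 * (x.length + y.length) + 12) =
    .halt (decide (false :: false :: x ∈ O ∧
      c1 :: c2 :: (pairs (y.reverse ++ [b]) ++ x) ∈ O)) := by
  unfold runFor
  by_cases hx : false :: false :: x ∈ O
  · have h1 : (step (progV b c1 c2) O)^[6] (.run 0 (stk x y)) = .run 6 (stk (b :: x) y) := by
      simp [step, progV, exec, upd0, stk0, hx]
    have h2 := V_loop b c1 c2 O y b x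
    have h3 : (step (progV b c1 c2) O)^[4] (.run 10 (stk (pairs (y.reverse ++ [b]) ++ x) [])) =
        .halt (decide (c1 :: c2 :: (pairs (y.reverse ++ [b]) ++ x) ∈ O)) := by
      generalize pairs (y.reverse ++ [b]) ++ x = Z
      by_cases hy : c1 :: c2 :: Z ∈ O
      · simp [step, progV, exec, upd0, stk0, hy]
      · simp [step, progV, exec, upd0, stk0, hy]
    have h4 : (step (progV b c1 c2) O)^[4 + ((3 * y.length + 2) + 6)] (.run 0 (stk x y)) =
        .halt (decide (c1 :: c2 :: (pairs (y.reverse ++ [b]) ++ x) ∈ O)) := by
      rw [Function.iterate_add_apply, Function.iterate_add_apply, h1, h2, h3]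
    have h5 := iter_mono h4 (t' := 3 * (x.length + y.length) + 12) (by omega)
    rw [h5]
    simp [hx]
  · have h1 : (step (progV b c1 c2) O)^[4] (.run 0 (stk x y)) = .halt false := by
      simp [step, progV, exec, upd0, stk0, hx]
    rw [iter_mono h1 (by omega)]
    simp [hx]

theorem lang_NP : LangG b c1 c2 O ∈ ClassNP O := by
  refine ⟨progV b c1 c2, 3 * Polynomial.X + 12, Polynomial.X, ?_, ?_⟩
  · intro x y
    have h := V_run b c1 c2 O x y
    have h2 : Polynomial.eval (x.length + y.length) (3 * Polynomial.X + 12 : Polynomial ℕ) =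
        3 * (x.length + y.length) + 12 := by
      simp
    rw [← h2] at h
    exact ⟨_, h⟩
  · intro x
    have h2 : ∀ y : Word, Polynomial.eval (x.length + y.length)
        (3 * Polynomial.X + 12 : Polynomial ℕ) = 3 * (x.length + y.length) + 12 := by
      intro y; simp
    constructor
    · rintro ⟨hx, y, hy, h⟩
      refine ⟨y, by simpa using hy, ?_⟩
      rw [h2, V_run b c1 c2 O x y]
      simp [hx, h]
    · rintro ⟨y, hy, h⟩
      rw [h2, V_run b c1 c2 O x y] at h
      simp only [Cfg.halt.injEq, decide_eq_true_eq] at h
      exact ⟨h.1, y, by simpa using hy, h.2⟩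

end progV

/-! ### The reduction program -/

/-- the part of the reduction program which does not depend on the machine index -/
def fixedPart : List Instr :=
  [ .push 0 false 32,   -- 0
    .push 0 false 2,    -- 1
    .push 0 false 3,    -- 2
    .push 0 false 4,    -- 3
    .push 0 false 5,    -- 4
    .query 0 9 6,       -- 5
    .pop 0 7 7 7,       -- 6
    .pop 0 8 8 8,       -- 7
    .pop 0 1 1 1,       -- 8
    .pop 0 10 10 10,    -- 9
    .pop 0 11 11 11,    -- 10
    .pop 0 12 12 12,    -- 11
    .push 0 true 13,    -- 12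
    .query 0 14 16,     -- 13
    .pop 0 15 15 15,    -- 14
    .push 0 true 18,    -- 15
    .pop 0 17 17 17,    -- 16
    .push 0 false 18,   -- 17
    .push 0 true 19,    -- 18
    .push 0 false 20,   -- 19
    .push 0 false 21,   -- 20
    .push 0 false 22,   -- 21
    .query 0 9 23,      -- 22
    .pop 0 24 24 24,    -- 23
    .pop 0 25 25 25,    -- 24
    .pop 0 26 26 26,    -- 25
    .push 0 true 27,    -- 26
    .push 0 false 28,   -- 27
    .push 0 false 29,   -- 28
    .query 0 30 31,     -- 29
    .stop true,         -- 30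
    .stop false ]       -- 31

/-- the reduction program for the machine with index `e` -/
def progR (e : ℕ) : List Instr :=
  fixedPart ++ (List.range (e + 1)).map
    (fun i => Instr.push 0 true (if i = e then 1 else 33 + i))

theorem progR_hdr (e i : ℕ) (hi : i ≤ e) :
    (progR e)[32 + i]? = some (.push 0 true (if i = e then 1 else 33 + i)) := by
  unfold progR
  rw [List.getElem?_append_right (by simp [fixedPart])]
  have : 32 + i - fixedPart.length = i := by simp [fixedPart]
  rw [this, List.getElem?_map, List.getElem?_range (by omega)]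
  rfl

theorem R_hdr (e : ℕ) (P : Set Word) (k : ℕ) : ∀ (i : ℕ) (u : Word), i + k = e →
    (step (progR e) P)^[k + 1] (.run (32 + i) (stk u [])) =
      .run 1 (stk (List.replicate (k + 1) true ++ u) []) := by
  induction k with
  | zero =>
    intro i u hi
    have h := progR_hdr e i (by omega)
    rw [if_pos (by omega)] at h
    simp only [zero_add, Function.iterate_one]
    rw [step, h, exec, stk0, upd0]
    rfl
  | succ k ih =>
    intro i u hi
    have h := progR_hdr e i (by omega)
    rw [if_neg (by omega)] at h
    rw [Function.iterate_succ_apply, step, h, exec, stk0, upd0]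
    have h2 : 33 + i = 32 + (i + 1) := by ring
    rw [h2, ih (i + 1) (true :: u) (by omega)]
    congr 2
    rw [List.replicate_succ' (n := k + 1)]
    simp

theorem body_zero (e : ℕ) (x : Word) :
    body e x 0 [] = List.replicate (e + 1) true ++ false :: x := by
  simp [body, pairs]

theorem body_succ (e : ℕ) (x : Word) (m : ℕ) : body e x (m + 1) [] = false :: body e x m [] := by
  simp [body, pairs, List.replicate_succ]

theorem body_cons (e : ℕ) (x : Word) (m : ℕ) (c : Bool) (u : Word) :
    body e x m (c :: u) = true :: c :: body e x m u := by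
  simp [body, pairs]

theorem body_mem_H (e : ℕ) (x : Word) (m : ℕ) (u : Word) (hm : 0 < m) :
    body e x m u ∈ Hset ↔ m = ell e x ∧ u.length < ell e x := by
  constructor
  · rintro (⟨e', x', u', h1, h2⟩ | ⟨n, hn⟩)
    · obtain ⟨rfl, rfl, rfl, rfl⟩ := body_inj hm (ell_pos _ _) h2
      exact ⟨rfl, h1⟩
    · exact absurd hn (body_ne (v := []) hm (Nat.succ_pos n))
  · rintro ⟨rfl, h⟩
    exact Or.inl ⟨e, x, u, h, rfl⟩

theorem join_false (O T : Set Word) (z : Word) : false :: z ∈ join O T ↔ z ∈ O := by
  constructor
  · rintro (⟨x, hx, h⟩ | ⟨x, hx, h⟩)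
    · simp only [List.cons.injEq, true_and] at h; rw [h]; exact hx
    · simp at h
  · intro h; exact Or.inl ⟨z, h, rfl⟩

theorem join_true (O T : Set Word) (z : Word) : true :: z ∈ join O T ↔ z ∈ T := by
  constructor
  · rintro (⟨x, hx, h⟩ | ⟨x, hx, h⟩)
    · simp at h
    · simp only [List.cons.injEq, true_and] at h; rw [h]; exact hx
  · intro h; exact Or.inr ⟨z, h, rfl⟩

section reduction
variable (w : ℕ → Word → Word) (μ : Marks) (T : Set Word) (e : ℕ) (x : Word)

theorem R_phase1 (k : ℕ) : ∀ m, m + k + 1 = ell e x →
    (step (progR e) (join (Orc w μ) T))^[8 * k + 5] (.run 1 (stk (body e x m []) [])) =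
      .run 9 (stk (false :: false :: false :: body e x (ell e x) []) []) := by
  induction k with
  | zero =>
    intro m hm
    have h1 : false :: false :: false :: false :: body e x m [] ∈ join (Orc w μ) T := by
      rw [join_false, H_mem, ← body_succ, body_mem_H _ _ _ _ (by omega)]
      exact ⟨by omega, ell_pos _ _⟩
    have h2 : ell e x = m + 1 := by omega
    rw [h2, body_succ]
    simp [step, progR, fixedPart, exec, upd0, stk0, h1]
  | succ k ih =>
    intro m hm
    have h1 : false :: false :: false :: false :: body e x m [] ∉ join (Orc w μ) T := by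
      rw [join_false, H_mem, ← body_succ, body_mem_H _ _ _ _ (by omega)]
      omega
    have h2 : (step (progR e) (join (Orc w μ) T))^[8] (.run 1 (stk (body e x m []) [])) =
        .run 1 (stk (body e x (m + 1) []) []) := by
      rw [body_succ]
      simp [step, progR, fixedPart, exec, upd0, stk0, h1]
    have h3 : 8 * (k + 1) + 5 = (8 * k + 5) + 8 := by ring
    rw [h3, Function.iterate_add_apply, h2, ih (m + 1) (by omega)]

/-- the next partial witness -/
noncomputable def nxt (u : Word) : Word := decide (body e x (ell e x) u ∈ T) :: u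

theorem R_phase2 (k : ℕ) : ∀ u : Word, u.length + k + 1 = ell e x →
    (step (progR e) (join (Orc w μ) T))^[12 * k + 12]
      (.run 9 (stk (false :: false :: false :: body e x (ell e x) u) [])) =
      .run 23 (stk (false :: false :: false :: body e x (ell e x) ((nxt T e x)^[k + 1] u)) []) := by
  induction k with
  | zero =>
    intro u hu
    have h1 : ∀ c, false :: false :: false :: body e x (ell e x) (c :: u) ∉
        join (Orc w μ) T := by
      intro c
      rw [join_false, H_mem, body_mem_H _ _ _ _ (ell_pos _ _)]
      simp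
      omega
    simp only [body_cons] at h1
    have h1t := h1 true
    have h1f := h1 false
    by_cases hT : body e x (ell e x) u ∈ T
    · have h2 : true :: body e x (ell e x) u ∈ join (Orc w μ) T := by
        rw [join_true]; exact hT
      simp [step, progR, fixedPart, exec, upd0, stk0, h1t, h2, nxt, hT, body_cons]
    · have h2 : true :: body e x (ell e x) u ∉ join (Orc w μ) T := by
        rw [join_true]; exact hT
      simp [step, progR, fixedPart, exec, upd0, stk0, h1f, h2, nxt, hT, body_cons]
  | succ k ih =>
    intro u hu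
    have h1 : ∀ c, false :: false :: false :: body e x (ell e x) (c :: u) ∈
        join (Orc w μ) T := by
      intro c
      rw [join_false, H_mem, body_mem_H _ _ _ _ (ell_pos _ _)]
      simp
      omega
    simp only [body_cons] at h1
    have h1t := h1 true
    have h1f := h1 false
    have h3 : (step (progR e) (join (Orc w μ) T))^[12]
        (.run 9 (stk (false :: false :: false :: body e x (ell e x) u) [])) =
        .run 9 (stk (false :: false :: false :: body e x (ell e x) (nxt T e x u)) []) := by
      by_cases hT : body e x (ell e x) u ∈ T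
      · have h2 : true :: body e x (ell e x) u ∈ join (Orc w μ) T := by
          rw [join_true]; exact hT
        simp [step, progR, fixedPart, exec, upd0, stk0, h1t, h2, nxt, hT, body_cons]
      · have h2 : true :: body e x (ell e x) u ∉ join (Orc w μ) T := by
          rw [join_true]; exact hT
        simp [step, progR, fixedPart, exec, upd0, stk0, h1f, h2, nxt, hT, body_cons]
    have h4 : 12 * (k + 1) + 12 = (12 * k + 12) + 12 := by ring
    rw [h4, Function.iterate_add_apply, h3, ih (nxt T e x u) (by simp [nxt]; omega)]
    rfl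

theorem R_run : (step (progR e) (join (Orc w μ) T))^[20 * ell e x + e + 10]
    (.run 0 (stk x [])) =
    .halt (decide (code e x ((nxt T e x)^[ell e x] []) ∈ Orc w μ)) := by
  obtain ⟨l, hl⟩ := Nat.exists_eq_succ_of_ne_zero (ell_pos e x).ne'
  have h0 : (step (progR e) (join (Orc w μ) T)) (.run 0 (stk x [])) =
      .run 32 (stk (false :: x) []) := by
    simp [step, progR, fixedPart, exec, upd0, stk0]
  have h1 := R_hdr e (join (Orc w μ) T) e 0 (false :: x) (by omega)
  rw [← body_zero] at h1
  have h2 := R_phase1 w μ T e x l 0 (by omega)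
  have h3 := R_phase2 w μ T e x l [] (by simp; omega)
  have h4 : (step (progR e) (join (Orc w μ) T))^[8]
      (.run 23 (stk (false :: false :: false ::
        body e x (ell e x) ((nxt T e x)^[l + 1] [])) [])) =
      .halt (decide (code e x ((nxt T e x)^[ell e x] []) ∈ Orc w μ)) := by
    have h5 : ell e x = l + 1 := by omega
    rw [← h5]
    unfold code
    by_cases h6 : false :: true :: body e x (ell e x) ((nxt T e x)^[ell e x] []) ∈ Orc w μ
    · have h7 : false :: false :: true :: body e x (ell e x) ((nxt T e x)^[ell e x] []) ∈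
          join (Orc w μ) T := by
        rw [join_false]; exact h6
      simp [step, progR, fixedPart, exec, upd0, stk0, h7, h6]
    · have h7 : false :: false :: true :: body e x (ell e x) ((nxt T e x)^[ell e x] []) ∉
          join (Orc w μ) T := by
        rw [join_false]; exact h6
      simp [step, progR, fixedPart, exec, upd0, stk0, h7, h6]
  have h5 : (step (progR e) (join (Orc w μ) T))^[8 + ((12 * l + 12) + ((8 * l + 5) +
      ((e + 1) + 1)))] (.run 0 (stk x [])) =
      .halt (decide (code e x ((nxt T e x)^[ell e x] []) ∈ Orc w μ)) := by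
    rw [Function.iterate_add_apply _ 8, Function.iterate_add_apply _ (12 * l + 12),
      Function.iterate_add_apply _ (8 * l + 5),
      Function.iterate_add_apply _ (e + 1) 1, Function.iterate_one, h0]
    rw [show (32 : ℕ) = 32 + 0 from rfl, h1, h2, h3, h4]
  exact iter_mono h5 (by omega)

end reduction

/-! ### The hard pair -/

theorem next_bit {w : ℕ → Word → Word} {μ : Marks} {e : ℕ} {x : Word}
    (hacc : Acc (enum e) (Orc w μ) x) (hlen : (w e x).length = ell e x) {v u : Word} {c : Bool}
    (h : w e x = v ++ c :: u) : body e x (ell e x) u ∈ LangG c false true (Orc w μ) := by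
  have hl := congrArg List.length h
  rw [List.length_append, List.length_cons, hlen] at hl
  refine ⟨?_, v.reverse, ?_, ?_⟩
  · rw [H_mem, body_mem_H _ _ _ _ (ell_pos _ _)]
    exact ⟨rfl, by omega⟩
  · rw [List.length_reverse]
    have := congrArg List.length (rfl : body e x (ell e x) u = body e x (ell e x) u)
    have h2 : (body e x (ell e x) u).length = 2 * u.length + ell e x + e + x.length + 2 := by
      simp [body, pairs_length]; ring
    omega
  · rw [List.reverse_reverse, pairs_body]
    have h3 : v ++ [c] ++ u = w e x := by rw [h]; simp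
    rw [h3]
    exact (code_mem w μ e x (w e x)).2 ⟨rfl, hacc⟩

theorem pair_disjoint (w : ℕ → Word → Word) (μ : Marks) :
    LangG true false true (Orc w μ) ∩ LangG false false true (Orc w μ) = ∅ := by
  rw [Set.eq_empty_iff_forall_notMem]
  rintro z ⟨⟨hH, y, _, h1⟩, ⟨_, y', _, h2⟩⟩
  rw [H_mem] at hH
  have key : ∀ (v : Word), false :: true :: (pairs v ++ z) ∈ Orc w μ →
      ∃ e x u, z = body e x (ell e x) u ∧ v ++ u = w e x := by
    intro v hv
    rw [mem_Orc] at hv
    rcases hv with (⟨z', _, h⟩ | ⟨c, n, v', _, h⟩) | ⟨e, x, h, _⟩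
    · simp at h
    · simp [markWord] at h
    · unfold code at h
      simp only [List.cons.injEq, true_and] at h
      rcases hH with ⟨e', x', u, _, rfl⟩ | ⟨n, rfl⟩
      · rw [pairs_body] at h
        obtain ⟨rfl, rfl, _, h3⟩ := body_inj (ell_pos _ _) (ell_pos _ _) h
        exact ⟨e', x', u, rfl, h3⟩
      · exact absurd h.symm (body_ne (ell_pos _ _) (Nat.succ_pos n))
  obtain ⟨e, x, u, hz, h3⟩ := key _ h1
  obtain ⟨e', x', u', hz', h4⟩ := key _ h2
  rw [hz] at hz'
  obtain ⟨rfl, rfl, _, rfl⟩ := body_inj (ell_pos _ _) (ell_pos _ _) hz'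
  rw [← h4] at h3
  have h5 := List.append_cancel_right h3
  have h6 := congrArg List.getLast? h5
  simp at h6

theorem pair_hard (w : ℕ → Word → Word) (μ : Marks) (hlen : ∀ e x, (w e x).length = ell e x) :
    IsNPHard (Orc w μ) (LangG true false true (Orc w μ)) (LangG false false true (Orc w μ)) := by
  rintro K ⟨M, p, q, hhalt, hK⟩ T ⟨hT1, hT2⟩
  refine ⟨K, ⟨subset_rfl, by simp⟩, ?_⟩
  obtain ⟨e, he⟩ := enum_surj (M, p, q)
  have hKacc : ∀ x, x ∈ K ↔ Acc (enum e) (Orc w μ) x := by
    intro x
    rw [hK x, he]
    rfl
  have hu : ∀ x, code e x ((nxt T e x)^[ell e x] []) ∈ Orc w μ ↔ x ∈ K := by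
    intro x
    rw [code_mem, hKacc]
    constructor
    · exact fun h => h.2
    · intro hacc
      refine ⟨?_, hacc⟩
      have hsuf : ∀ k, k ≤ ell e x → ((nxt T e x)^[k] []).length = k ∧
          (nxt T e x)^[k] [] <:+ w e x := by
        intro k
        induction k with
        | zero => intro _; exact ⟨rfl, List.nil_suffix⟩
        | succ k ih =>
          intro hk
          obtain ⟨h1, h2⟩ := ih (by omega)
          rw [Function.iterate_succ_apply']
          set u := (nxt T e x)^[k] [] with hu
          obtain ⟨v, hv⟩ := h2
          have hvne : v ≠ [] := by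
            intro h
            rw [h] at hv
            have := congrArg List.length hv
            rw [hlen] at this
            simp at this
            omega
          obtain ⟨v', c, rfl⟩ : ∃ v' c, v = v' ++ [c] :=
            ⟨v.dropLast, v.getLast hvne, (List.dropLast_append_getLast hvne).symm⟩
          have hv' : w e x = v' ++ c :: u := by rw [← hv]; simp
          have h3 := next_bit hacc (hlen e x) hv'
          have h4 : decide (body e x (ell e x) u ∈ T) = c := by
            cases c
            · have : body e x (ell e x) u ∉ T := by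
                intro h
                have : body e x (ell e x) u ∈ LangG false false true (Orc w μ) ∩ T := ⟨h3, h⟩
                rw [hT2] at this
                exact this
              simp [this]
            · have : body e x (ell e x) u ∈ T := hT1 h3
              simp [this]
          constructor
          · simp [nxt, h1]
          · refine ⟨v', ?_⟩
            rw [nxt, h4, hv']
      obtain ⟨h1, h2⟩ := hsuf (ell e x) le_rfl
      exact h2.eq_of_length (by rw [h1, hlen])
  refine ⟨progR e, 20 * (lam (enum e) + 3) ^ 2 + Polynomial.C (e + 10), ?_⟩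
  intro x
  have hev : Polynomial.eval x.length (20 * (lam (enum e) + 3) ^ 2 + Polynomial.C (e + 10) :
      Polynomial ℕ) = 20 * ell e x + e + 10 := by
    simp [ell]
    ring
  rw [hev]
  have hrun := R_run w μ T e x
  unfold runFor
  rw [hrun]
  constructor
  · intro h
    simp [(hu x).2 h]
  · intro h
    have : code e x ((nxt T e x)^[ell e x] []) ∉ Orc w μ := fun h' => h ((hu x).1 h')
    simp [this]

/-! ### The construction of the oracle -/

/-- states of the construction -/
abbrev State : Type := {p : ℕ × (ℕ → Word → Word) × Marks // Valid p.1 p.2.1 p.2.2}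

theorem ext_trans {N N' : ℕ} (h : N ≤ N') {w w' w'' : ℕ → Word → Word} {μ μ' μ'' : Marks}
    (h1 : Ext N w μ w' μ') (h2 : Ext N' w' μ' w'' μ'') : Ext N w μ w'' μ'' := by
  refine ⟨fun e x he => ?_, fun c n v hn => ?_⟩
  · rw [h1.1 e x he, h2.1 e x (by omega)]
  · rw [h1.2 c n v hn, h2.2 c n v (by omega)]

theorem exists_initial : ∃ (w : ℕ → Word → Word) (μ : Marks), Valid 0 w μ := by
  refine ⟨fun e x => List.replicate (ell e x - 2) false ++ [true, false], fun _ _ _ => False,
    ?_, fun _ _ _ _ h => h⟩
  intro e x
  constructor
  · have := lam_lt_ell e x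
    rw [List.length_append, List.length_replicate]
    simp
    omega
  · exact ⟨_, rfl⟩

theorem limit (mach : ℕ → Bool → NPM) : ∃ (w : ℕ → Word → Word) (μ : Marks),
    (∀ e x, (w e x).length = ell e x ∧ [true, false] <:+ w e x) ∧
    ∀ k, Req (mach k) (Orc w μ) := by
  obtain ⟨w0, μ0, h0⟩ := exists_initial
  have hst : ∀ (k : ℕ) (σ : State), ∃ σ' : State, σ.1.1 < σ'.1.1 ∧
      Ext σ.1.1 σ.1.2.1 σ.1.2.2 σ'.1.2.1 σ'.1.2.2 ∧
      ∀ w'' μ'', Ext σ'.1.1 σ'.1.2.1 σ'.1.2.2 w'' μ'' → Req (mach k) (Orc w'' μ'') := by
    rintro k ⟨⟨N, w, μ⟩, hv⟩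
    obtain ⟨N', w', μ', h1, h2, h3, h4⟩ := stage (mach k) N w μ hv
    exact ⟨⟨⟨N', w', μ'⟩, h2⟩, h1, h3, h4⟩
  choose nx hnx1 hnx2 hnx3 using hst
  let sq : ℕ → State := fun k => Nat.rec ⟨⟨0, w0, μ0⟩, h0⟩ (fun k σ => nx k σ) k
  have hsucc : ∀ k, sq (k + 1) = nx k (sq k) := fun k => rfl
  have hN : ∀ k, k ≤ (sq k).1.1 := by
    intro k
    induction k with
    | zero => exact Nat.zero_le _
    | succ k ih =>
      have := hnx1 k (sq k)
      rw [hsucc]
      omega
  have hNm : ∀ k j, (sq k).1.1 ≤ (sq (k + j)).1.1 := by
    intro k j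
    induction j with
    | zero => exact le_rfl
    | succ j ih =>
      have := hnx1 (k + j) (sq (k + j))
      rw [← add_assoc, hsucc]
      omega
  have hExt : ∀ k j, Ext (sq k).1.1 (sq k).1.2.1 (sq k).1.2.2
      (sq (k + j)).1.2.1 (sq (k + j)).1.2.2 := by
    intro k j
    induction j with
    | zero => exact ⟨fun _ _ _ => rfl, fun _ _ _ _ => Iff.rfl⟩
    | succ j ih =>
      have := hnx2 (k + j) (sq (k + j))
      rw [← add_assoc, hsucc]
      exact ext_trans (hNm k j) ih this
  have hExt' : ∀ k l, k ≤ l → Ext (sq k).1.1 (sq k).1.2.1 (sq k).1.2.2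
      (sq l).1.2.1 (sq l).1.2.2 := by
    intro k l hkl
    obtain ⟨j, rfl⟩ := Nat.exists_eq_add_of_le hkl
    exact hExt k j
  let W : ℕ → Word → Word := fun e x => (sq (ell e x + 1)).1.2.1 e x
  let M : Marks := fun c n v => (sq (n + 1)).1.2.2 c n v
  have hlim : ∀ k, Ext (sq k).1.1 (sq k).1.2.1 (sq k).1.2.2 W M := by
    intro k
    constructor
    · intro e x he
      rcases le_total k (ell e x + 1) with h | h
      · exact (hExt' _ _ h).1 e x he
      · exact ((hExt' _ _ h).1 e x (by have := hN (ell e x + 1); omega)).symm
    · intro c n v hn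
      rcases le_total k (n + 1) with h | h
      · exact (hExt' _ _ h).2 c n v hn
      · exact ((hExt' _ _ h).2 c n v (by have := hN (n + 1); omega)).symm
  refine ⟨W, M, ?_, ?_⟩
  · intro e x
    exact (sq (ell e x + 1)).2.1 e x
  · intro k
    apply hnx3 k (sq k)
    rw [← hsucc]
    exact hlim (k + 1)

/-- There is an oracle relative to which NP does not have the shrinking property, but there is an
NP-hard disjoint NP-pair. -/
theorem result : ∃ O : Set Word, ¬ HasShrinking (ClassNP O) ∧
    ∃ A B : Set Word, IsDisjointNPPair O A B ∧ IsNPHard O A B := by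
  obtain ⟨w, μ, hw, hreq⟩ := limit
    (fun k c => if c then enum k.unpair.2 else enum k.unpair.1)
  refine ⟨Orc w μ, ?_, LangG true false true (Orc w μ), LangG false false true (Orc w μ), ?_, ?_⟩
  · intro hshr
    obtain ⟨A', hA', B', hB', h1, h2, h3, h4⟩ := hshr _ (lang_NP false true false (Orc w μ))
      _ (lang_NP false true true (Orc w μ))
    obtain ⟨M, p, q, _, hA⟩ := hA'
    obtain ⟨M', p', q', _, hB⟩ := hB'
    obtain ⟨a, ha⟩ := enum_surj (M, p, q)
    obtain ⟨b, hb⟩ := enum_surj (M', p', q')
    have hA'' : ∀ x, x ∈ A' ↔ Acc (enum a) (Orc w μ) x := by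
      intro x; rw [hA x, ha]; rfl
    have hB'' : ∀ x, x ∈ B' ↔ Acc (enum b) (Orc w μ) x := by
      intro x; rw [hB x, hb]; rfl
    obtain ⟨n, _, hn⟩ := hreq (Nat.pair a b)
    simp only [Nat.unpair_pair] at hn
    rcases hn with hn | ⟨c, hn1, hn2, hn3⟩
    · have h5 : List.replicate n false ∈ A' := (hA'' _).2 (by simpa using hn false)
      have h6 : List.replicate n false ∈ B' := (hB'' _).2 (by simpa using hn true)
      have : List.replicate n false ∈ A' ∩ B' := ⟨h5, h6⟩
      rw [h3] at this
      exact this
    · cases c
      · have h5 : List.replicate n false ∈ A' ∪ B' := by rw [h4]; exact Or.inl hn1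
        rcases h5 with h5 | h5
        · exact hn3 (by simpa using (hA'' _).1 h5)
        · exact hn2 (h2 h5)
      · have h5 : List.replicate n false ∈ A' ∪ B' := by rw [h4]; exact Or.inr hn1
        rcases h5 with h5 | h5
        · exact hn2 (h1 h5)
        · exact hn3 (by simpa using (hB'' _).1 h5)
  · -- a machine which accepts everything
    obtain ⟨e, he⟩ := enum_surj ([Instr.stop true], 1, 0)
    have hacc : Acc (enum e) (Orc w μ) [] := by
      rw [he]
      refine ⟨[], by simp, ?_⟩
      simp [runFor, step, exec]
    obtain ⟨hlen, v, hv⟩ := hw e []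
    refine ⟨lang_NP _ _ _ _, lang_NP _ _ _ _, ?_, ?_, pair_disjoint w μ⟩
    · exact ⟨_, next_bit (v := v) (u := [false]) (c := true) hacc hlen (by rw [← hv])⟩
    · exact ⟨_, next_bit (v := v ++ [true]) (u := []) (c := false) hacc hlen (by rw [← hv]; simp)⟩
  · exact pair_hard w μ (fun e x => (hw e x).1)

end Pool.Agent.Results.MP_58deb1_lc.UPOracle
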